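import Mathlib

/-!
# TH: rational functions outside a thin set. Definitions

`Idx d` is the set of indices of the coefficients of `s` pairs of polynomials of degrees at most
`d a`; `pl c a 0 / pl c a 1` is the rational function number `a` of the coefficient vector `c`.
-/

set_option autoImplicit false

namespace Pool.Agent.Helper61.TH

open Polynomial

noncomputable section

/-- indices of the coefficients: the rational function, numerator or denominator, the exponent -/
abbrev Idx {s : ℕ} (d : Fin s → ℕ) : Type := Σ a : Fin s, Fin 2 × Fin (d a + 1)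

variable {s : ℕ} {d : Fin s → ℕ} {R : Type*} [CommRing R]

/-- numerator (`i = 0`) and denominator (`i = 1`) of the rational function number `a` -/
def pl (c : Idx d → R) (a : Fin s) (i : Fin 2) : R[X] :=
  ∑ j : Fin (d a + 1), C (c ⟨a, (i, j)⟩) * X ^ (j : ℕ)

/-- the Wronskian: its zeros are the critical points -/
def wr (c : Idx d → R) (a : Fin s) : R[X] :=
  derivative (pl c a 0) * pl c a 1 - pl c a 0 * derivative (pl c a 1)

/-- the leading coefficient -/
def lc (c : Idx d → R) (a : Fin s) (i : Fin 2) : R := c ⟨a, (i, Fin.last (d a))⟩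

/-- **Generic position with respect to an automorphism**: `γ` fixes all critical points and no
point of the fibres over the critical points. -/
structure Star {k Ω : Type*} [Field k] [Field Ω] [Algebra k Ω] (c : Idx d → k) (γ : Ω ≃ₐ[k] Ω) :
    Prop where
  top : ∀ a, (wr c a).coeff (2 * d a - 2) ≠ 0
  fix : ∀ a z, aeval z (wr c a) = 0 → γ z = z
  lead : ∀ a b z, aeval z (wr c a) = 0 →
    algebraMap k Ω (lc c b 0) ≠ z * algebraMap k Ω (lc c b 1)
  move : ∀ a b z y, aeval z (wr c a) = 0 → aeval y (pl c b 0) = z * aeval y (pl c b 1) → γ y ≠ y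

/-- **Good reduction**: the critical points are rational over `k₀` and have no rational preimage. -/
structure HypU {k₀ : Type*} [Field k₀] (c : Idx d → k₀) : Prop where
  char : ∀ a, (d a : k₀) ≠ 0
  top : ∀ a, (wr c a).coeff (2 * d a - 2) ≠ 0
  split : ∀ a, (wr c a).Splits
  lead : ∀ a b z, eval z (wr c a) = 0 → lc c b 0 ≠ z * lc c b 1
  nofib : ∀ a b z y, eval z (wr c a) = 0 → eval y (pl c b 0) ≠ z * eval y (pl c b 1)

/-- the binary forms of the coefficient vector -/
def form (c : Idx d → R) (a : Fin s) (i : Fin 2) : MvPolynomial (Fin 2) R :=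
  ∑ j : Fin (d a + 1),
    MvPolynomial.C (c ⟨a, (i, j)⟩) * MvPolynomial.X 0 ^ (j : ℕ) * MvPolynomial.X 1 ^ (d a - j)

/-- the pair of forms of the composition `φ_{a 1} ∘ φ_{a 2} ∘ ...` along a word -/
def word (c : Idx d → R) : List (Fin s) → Fin 2 → MvPolynomial (Fin 2) R
  | [] => fun i => MvPolynomial.X i
  | a :: w => fun i => MvPolynomial.bind₁ (word c w) (form c a i)

/-- the map `x ↦ (φ_{A b} (x_{π b}))_b` in homogeneous coordinates -/
def sysMap (c : Idx d → R) {k : ℕ} (A : Fin k → Fin s) (π : Fin k → Fin k)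
    (x : Fin k → Fin 2 → R) : Fin k → Fin 2 → R :=
  fun b i => ∑ j : Fin (d (A b) + 1),
    c ⟨A b, (i, j)⟩ * x (π b) 0 ^ (j : ℕ) * x (π b) 1 ^ (d (A b) - j)

theorem eval_form (c : Idx d → R) (a : Fin s) (i : Fin 2) (x : Fin 2 → R) :
    MvPolynomial.eval x (form c a i) =
      ∑ j : Fin (d a + 1), c ⟨a, (i, j)⟩ * x 0 ^ (j : ℕ) * x 1 ^ (d a - j) := by
  rw [form, map_sum]
  refine Finset.sum_congr rfl fun j _ => ?_
  simp

theorem map_form {S : Type*} [CommRing S] (f : R →+* S) (c : Idx d → R) (a : Fin s) (i : Fin 2) :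
    MvPolynomial.map f (form c a i) = form (fun q => f (c q)) a i := by
  rw [form, form, map_sum]
  refine Finset.sum_congr rfl fun j _ => ?_
  simp

theorem map_pl {S : Type*} [CommRing S] (f : R →+* S) (c : Idx d → R) (a : Fin s) (i : Fin 2) :
    Polynomial.map f (pl c a i) = pl (fun q => f (c q)) a i := by
  rw [pl, pl, Polynomial.map_sum]
  refine Finset.sum_congr rfl fun j _ => ?_
  simp

theorem map_wr {S : Type*} [CommRing S] (f : R →+* S) (c : Idx d → R) (a : Fin s) :
    Polynomial.map f (wr c a) = wr (fun q => f (c q)) a := by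
  rw [wr, wr, Polynomial.map_sub, Polynomial.map_mul, Polynomial.map_mul, ← derivative_map,
    ← derivative_map, map_pl, map_pl]

end

end Pool.Agent.Helper61.TH
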