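import Mathlib
import Pool.Agent.Helper61.TH.Defs
import Pool.Agent.Helper26.FV.Core
import Pool.Agent.Helper26.FV.Red
import Pool.Agent.Helper26.FU.Asm
import Pool.Agent.Helper87.FK.Defs
import Pool.Agent.Helper87.FK.Cpx

/-!
# TH: definitions for the p-adic part (block D)
-/

set_option autoImplicit false

namespace Pool.Agent.Helper61.TH

open Pool.Agent.Helper26.FU (MultiHom PurelyTranscendental)

noncomputable section

variable {s : ℕ} {d : Fin s → ℕ}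

/-- the dichotomy for a sequence of points: along each progression `W + r + Q m` a multihomogeneous
polynomial of degree at most `δ` vanishes at most `B` times or always -/
def Dich (k W Q B δ : ℕ) (x : ℕ → Fin k → Fin 2 → ℂ) : Prop :=
  ∀ G : MvPolynomial (Fin k × Fin 2) ℂ, MultiHom G → G.totalDegree ≤ δ → ∀ r : ℕ,
    {m | MvPolynomial.eval (fun q => x (W + r + Q * m) q.1 q.2) G = 0}.encard ≤ B ∨
      ∀ m, MvPolynomial.eval (fun q => x (W + r + Q * m) q.1 q.2) G = 0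

/-- numerators and denominators have no common zero -/
def HasDeg (c : Idx d → ℂ) : Prop :=
  ∀ (a : Fin s) (x : Fin 2 → ℂ), (fun i => ∑ j : Fin (d a + 1),
    c ⟨a, (i, j)⟩ * x 0 ^ (j : ℕ) * x 1 ^ (d a - j)) = (0 : Fin 2 → ℂ) → x = 0

/-- the dynamical Mordell-Lang conjecture for the maps of the coefficient vector `c` -/
def FullDML (c : Idx d → ℂ) : Prop :=
  ∀ (k : ℕ) (A : Fin k → Fin s) (π : Fin k → Fin k) (α : Fin k → Fin 2 → ℂ), (∀ b, α b ≠ 0) →
    ∀ V : Set (MvPolynomial (Fin k × Fin 2) ℂ), (∀ G ∈ V, MultiHom G) → ∃ S : Finset (ℕ × ℕ),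
      {m : ℕ | ∀ G ∈ V, MvPolynomial.eval (fun q => (sysMap c A π)^[m] α q.1 q.2) G = 0} =
        {m | ∃ q ∈ S, ∃ j, m = q.1 + q.2 * j}

/-- the uniform dynamical Mordell-Lang conjecture for the maps of the coefficient vector `c` -/
def UnifDML (L₀ : Subfield ℂ) (c : Idx d → ℂ) : Prop :=
  ∃ (C : ℕ → ℕ → ℕ → ℕ) (W Q : ℕ → ℕ → ℕ), (∀ k D, 1 ≤ Q k D) ∧
  ∀ (k D δ : ℕ) (A : Fin k → Fin s) (π : Fin k → Fin k) (E : Subfield ℂ),
    PurelyTranscendental L₀ E →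
    ∀ M : IntermediateField E ℂ, FiniteDimensional E M → Module.finrank E M ≤ D →
    ∀ α : Fin k → Fin 2 → ℂ, (∀ b, α b ≠ 0) → (∀ b i, α b i ∈ M) →
    ∀ V : Set (MvPolynomial (Fin k × Fin 2) ℂ), (∀ G ∈ V, MultiHom G) →
    (∀ G ∈ V, G.totalDegree ≤ δ) →
    ∃ S T : Finset ℕ, S.card ≤ C k D δ ∧ (∀ a ∈ T, a < W k D + Q k D) ∧
      {m : ℕ | ∀ G ∈ V, MvPolynomial.eval (fun q => (sysMap c A π)^[m] α q.1 q.2) G = 0} =
        {m | m ∈ S ∨ ∃ a ∈ T, ∃ j, m = a + Q k D * j}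

end

end Pool.Agent.Helper61.TH
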