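import Mathlib
import Pool.Agent.Helper61.TH.Defs
import Pool.Agent.Helper87.FK.Defs

/-!
# TH: the compositions have good reduction (block D2)
-/

set_option autoImplicit false

namespace Pool.Agent.Helper61.TH

open MvPolynomial
open Pool.Agent.Helper87.FK (GoodF gm gm_map gm_comp)

noncomputable section

section chain

variable {R : Type*} [CommRing R] {n : ℕ}

/-- the chain rule -/
theorem pderiv_bind₁ (G : Fin n → MvPolynomial (Fin n) R) (P : MvPolynomial (Fin n) R)
    (j : Fin n) : pderiv j (bind₁ G P) = ∑ i, bind₁ G (pderiv i P) * pderiv j (G i) := by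
  classical
  induction P using MvPolynomial.induction_on with
  | C a => simp
  | add p q hp hq =>
    simp only [map_add, hp, hq, add_mul, Finset.sum_add_distrib]
  | mul_X p i hp =>
    rw [map_mul, bind₁_X_right, pderiv_mul, hp]
    have h1 : ∀ k, bind₁ G (pderiv k (p * X i)) * pderiv j (G k) =
        bind₁ G (pderiv k p) * pderiv j (G k) * G i +
          (if k = i then bind₁ G p * pderiv j (G i) else 0) := by
      intro k
      rw [pderiv_mul, map_add, map_mul, map_mul, bind₁_X_right, add_mul]
      congr 1
      · ring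
      · rw [pderiv_X]
        by_cases hk : k = i
        · subst hk
          rw [Pi.single_eq_same, map_one, mul_one, if_pos rfl]
        · rw [Pi.single_eq_of_ne (Ne.symm hk), map_zero, mul_zero, zero_mul, if_neg hk]
    simp only [h1]
    rw [Finset.sum_add_distrib, Finset.sum_ite_eq', if_pos (Finset.mem_univ _), Finset.sum_mul]

/-- the Jacobian matrix of `F` at `x` -/
def jac (F : Fin n → MvPolynomial (Fin n) R) (x : Fin n → R) : Matrix (Fin n) (Fin n) R :=
  Matrix.of fun i j => eval x (pderiv j (F i))

/-- the value of `F` at `x` -/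
def ev (F : Fin n → MvPolynomial (Fin n) R) (x : Fin n → R) : Fin n → R := fun i => eval x (F i)

theorem eval_bind (G : Fin n → MvPolynomial (Fin n) R) (P : MvPolynomial (Fin n) R)
    (x : Fin n → R) : eval x (bind₁ G P) = eval (ev G x) P := by
  rw [eval, eval₂Hom_bind₁]
  rfl

theorem jac_comp (F G : Fin n → MvPolynomial (Fin n) R) (x : Fin n → R) :
    jac (fun i => bind₁ G (F i)) x = jac F (ev G x) * jac G x := by
  ext i j
  rw [Matrix.mul_apply, jac, Matrix.of_apply, pderiv_bind₁, map_sum]
  refine Finset.sum_congr rfl fun l _ => ?_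
  rw [map_mul, eval_bind]
  rfl

theorem jac_id (x : Fin n → R) : jac (fun i => (X i : MvPolynomial (Fin n) R)) x = 1 := by
  classical
  ext i j
  rw [jac, Matrix.of_apply, pderiv_X, Matrix.one_apply]
  by_cases h : i = j
  · subst h
    rw [Pi.single_eq_same, map_one, if_pos rfl]
  · rw [Pi.single_eq_of_ne h, map_zero, if_neg h]

end chain

section words

variable {s : ℕ} {d : Fin s → ℕ} {R : Type*} [CommRing R]

theorem ev_word_cons (c : Idx d → R) (a : Fin s) (w : List (Fin s)) (x : Fin 2 → R) :
    ev (word c (a :: w)) x = ev (form c a) (ev (word c w) x) := by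
  funext i
  exact eval_bind _ _ _

theorem ev_word_nil (c : Idx d → R) (x : Fin 2 → R) : ev (word c []) x = x := by
  funext i
  exact eval_X i

theorem ev_word_append (c : Idx d → R) (v w : List (Fin s)) (x : Fin 2 → R) :
    ev (word c (v ++ w)) x = ev (word c v) (ev (word c w) x) := by
  induction v with
  | nil => rw [List.nil_append, ev_word_nil]
  | cons a v ih => rw [List.cons_append, ev_word_cons, ev_word_cons, ih]

theorem exists_iterate_word (c : Idx d → R) (w : List (Fin s)) (m : ℕ) :
    ∃ u : List (Fin s), ∀ x, ev (word c u) x = (ev (word c w))^[m] x := by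
  induction m with
  | zero => exact ⟨[], fun x => ev_word_nil c x⟩
  | succ m ih =>
    obtain ⟨u, hu⟩ := ih
    exact ⟨u ++ w, fun x => by rw [ev_word_append, hu, Function.iterate_succ_apply]⟩

theorem map_word {S : Type*} [CommRing S] (f : R →+* S) (c : Idx d → R) (w : List (Fin s))
    (i : Fin 2) : map f (word c w i) = word (fun q => f (c q)) w i := by
  induction w generalizing i with
  | nil => exact map_X _ _
  | cons a w ih =>
    have h1 : ∀ P : MvPolynomial (Fin 2) R, map f (bind₁ (word c w) P) =
        bind₁ (word (fun q => f (c q)) w) (map f P) := by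
      intro P
      rw [map_bind₁]
      congr 2
      funext i
      exact ih i
    change map f (bind₁ (word c w) (form c a i)) = _
    rw [h1, map_form]
    rfl

/-- a critical point of a word is, in the middle, a critical point of a letter -/
theorem exists_letter (c : Idx d → R) [IsDomain R] (w : List (Fin s)) (x : Fin 2 → R)
    (h : (jac (word c w) x).det = 0) : ∃ v a u, w = v ++ a :: u ∧
      (jac (form c a) (ev (word c u) x)).det = 0 := by
  induction w with
  | nil =>
    exfalso
    change (jac (fun i => (X i : MvPolynomial (Fin 2) R)) x).det = 0 at h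
    rw [jac_id, Matrix.det_one] at h
    exact one_ne_zero h
  | cons a w ih =>
    change (jac (fun i => bind₁ (word c w) (form c a i)) x).det = 0 at h
    rw [jac_comp, Matrix.det_mul] at h
    rcases mul_eq_zero.1 h with h1 | h1
    · exact ⟨[], a, w, rfl, h1⟩
    · obtain ⟨v, b, u, rfl, h2⟩ := ih h1
      exact ⟨a :: v, b, u, rfl, h2⟩

theorem form_homog (c : Idx d → R) (a : Fin s) (i : Fin 2) :
    (form c a i).IsHomogeneous (d a) := by
  rw [form]
  refine IsHomogeneous.sum _ _ _ fun j _ => ?_
  have h1 : 0 + 1 * (j : ℕ) + 1 * (d a - j) = d a := by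
    have := j.2
    omega
  have h2 := ((isHomogeneous_C (Fin 2) (c ⟨a, (i, j)⟩)).mul
    ((isHomogeneous_X R (0 : Fin 2)).pow (j : ℕ))).mul
    ((isHomogeneous_X R (1 : Fin 2)).pow (d a - j))
  rwa [h1] at h2

end words

section letters

variable {s : ℕ} {d : Fin s → ℕ} {k : Type*} [Field k]

theorem eval_form_one (c : Idx d → k) (a : Fin s) (i : Fin 2) (u : k) :
    eval ![u, 1] (form c a i) = (pl c a i).eval u := by
  rw [eval_form, pl, Polynomial.eval_finsetSum]
  refine Finset.sum_congr rfl fun j _ => ?_
  simp

theorem eval_form_inf (c : Idx d → k) (a : Fin s) (i : Fin 2) :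
    eval ![1, 0] (form c a i) = lc c a i := by
  rw [eval_form, Finset.sum_eq_single (Fin.last (d a))]
  · simp [lc]
  · intro j _ hj
    have h1 : d a - (j : ℕ) ≠ 0 := by
      have h2 := Fin.val_lt_last hj
      omega
    simp [h1]
  · intro h
    exact absurd (Finset.mem_univ _) h

theorem eval_pderiv_zero (c : Idx d → k) (a : Fin s) (i : Fin 2) (u : k) :
    eval ![u, 1] (pderiv 0 (form c a i)) = (Polynomial.derivative (pl c a i)).eval u := by
  rw [form, pl, map_sum, Polynomial.derivative_sum, Polynomial.eval_finsetSum, map_sum]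
  refine Finset.sum_congr rfl fun j _ => ?_
  rw [pderiv_mul, pderiv_mul, pderiv_C, pderiv_pow, pderiv_pow, pderiv_X_self,
    pderiv_X_of_ne (by decide : (0 : Fin 2) ≠ 1).symm]
  simp [Polynomial.derivative_X_pow]

theorem eval_pderiv_one_inf (c : Idx d → k) (a : Fin s) (i : Fin 2) (hd : 1 ≤ d a) :
    eval ![1, 0] (pderiv 1 (form c a i)) = (pl c a i).coeff (d a - 1) := by
  rw [form, pl, map_sum, map_sum, Polynomial.finsetSum_coeff]
  refine Finset.sum_congr rfl fun j _ => ?_
  rw [pderiv_mul, pderiv_mul, pderiv_C, pderiv_pow, pderiv_pow, pderiv_X_self,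
    pderiv_X_of_ne (by decide : (0 : Fin 2) ≠ 1)]
  simp only [Polynomial.coeff_C_mul, Polynomial.coeff_X_pow]
  by_cases hj : d a - 1 = (j : ℕ)
  · have h1 : d a - (j : ℕ) = 1 := by omega
    rw [h1, if_pos hj]
    simp
  · rw [if_neg hj]
    by_cases h2 : d a - (j : ℕ) = 0
    · rw [h2]
      simp
    · have h3 : d a - (j : ℕ) - 1 ≠ 0 := by
        have := j.2
        omega
      simp [h3]

theorem natDegree_pl_le (c : Idx d → k) (a : Fin s) (i : Fin 2) :
    (pl c a i).natDegree ≤ d a := by
  rw [pl]
  refine Polynomial.natDegree_sum_le_of_forall_le _ _ fun j _ => ?_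
  refine (Polynomial.natDegree_C_mul_X_pow_le _ _).trans ?_
  have := j.2
  omega

theorem coeff_wr_top (c : Idx d → k) (a : Fin s) (hd : 2 ≤ d a) :
    (wr c a).coeff (2 * d a - 2) =
      lc c a 0 * (pl c a 1).coeff (d a - 1) - (pl c a 0).coeff (d a - 1) * lc c a 1 := by
  have hco : ∀ i, (pl c a i).coeff (d a) = lc c a i := by
    intro i
    rw [pl, Polynomial.finsetSum_coeff, Finset.sum_eq_single (Fin.last (d a))]
    · rw [Polynomial.coeff_C_mul, Polynomial.coeff_X_pow, Fin.val_last, if_pos rfl, mul_one, lc]
    · intro j _ hj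
      rw [Polynomial.coeff_C_mul, Polynomial.coeff_X_pow, if_neg, mul_zero]
      intro h
      exact hj (Fin.ext h.symm)
    · intro h
      exact absurd (Finset.mem_univ _) h
  obtain ⟨n, hn⟩ : ∃ n, d a = n + 2 := ⟨d a - 2, by omega⟩
  -- the product rule at the two highest coefficients
  have hprod : ∀ P Q : Polynomial k, P.natDegree ≤ n + 1 → Q.natDegree ≤ n + 2 →
      (P * Q).coeff (2 * n + 2) = P.coeff (n + 1) * Q.coeff (n + 1) + P.coeff n * Q.coeff (n + 2) := by
    intro P Q hP hQ
    rw [Polynomial.coeff_mul, Finset.Nat.sum_antidiagonal_eq_sum_range_succ_mk]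
    rw [Finset.sum_eq_add_of_mem (n + 1) n (Finset.mem_range.2 (by omega))
      (Finset.mem_range.2 (by omega)) (by omega)]
    · congr 2
      · congr 1; omega
      · congr 1; omega
    · intro i hi hne
      rw [Finset.mem_range] at hi
      rcases lt_or_gt_of_ne hne.2 with h1 | h1
      · rw [Polynomial.coeff_eq_zero_of_natDegree_lt (p := Q) (by omega), mul_zero]
      · have h2 : n + 1 < i := by
          have := hne.1
          omega
        rw [Polynomial.coeff_eq_zero_of_natDegree_lt (p := P) (by omega), zero_mul]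
  have hdeg : ∀ i, (pl c a i).natDegree ≤ n + 2 := fun i => hn ▸ natDegree_pl_le c a i
  have hder : ∀ i, (Polynomial.derivative (pl c a i)).natDegree ≤ n + 1 := by
    intro i
    have h1 := Polynomial.natDegree_derivative_le (pl c a i)
    have h2 := hdeg i
    omega
  have h2n : 2 * d a - 2 = 2 * n + 2 := by omega
  rw [h2n, wr, Polynomial.coeff_sub, hprod _ _ (hder 0) (hdeg 1), mul_comm (pl c a 0),
    hprod _ _ (hder 1) (hdeg 0), ← hco 0, ← hco 1]
  simp only [Polynomial.coeff_derivative]
  have h3 : d a - 1 = n + 1 := by omega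
  rw [h3, hn]
  push_cast
  ring

end letters

end

end Pool.Agent.Helper61.TH
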