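import Mathlib
import Pool.Agent.Helper61.TH.Good

/-!
# TH: the compositions have good reduction (block D2), II
-/

set_option autoImplicit false

namespace Pool.Agent.Helper61.TH

open MvPolynomial
open Pool.Agent.Helper87.FK (GoodF gm gm_map gm_comp)

noncomputable section

theorem eval_smul_homog {R : Type*} [CommRing R] {n e : ℕ} {G : MvPolynomial (Fin n) R}
    (hG : G.IsHomogeneous e) (t : R) (x : Fin n → R) :
    eval (fun i => t * x i) G = t ^ e * eval x G := by
  rw [eval_eq', eval_eq', Finset.mul_sum]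
  refine Finset.sum_congr rfl fun s hs => ?_
  have h1 : s.degree = e := by
    by_contra hne
    exact (mem_support_iff.1 hs) (hG.coeff_eq_zero hne)
  have h2 : ∏ i, (t * x i) ^ s i = t ^ e * ∏ i, x i ^ s i := by
    simp only [mul_pow, Finset.prod_mul_distrib]
    rw [Finset.prod_pow_eq_pow_sum, ← h1, Finsupp.degree_eq_sum]
  rw [h2]
  ring

section letters

variable {s : ℕ} {d : Fin s → ℕ} {k₀ k : Type*} [Field k₀] [Field k]

theorem vec_eq_fin (x : Fin 2 → k) (h : x 1 ≠ 0) :
    x = fun i => x 1 * (![x 0 / x 1, 1] : Fin 2 → k) i := by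
  funext i
  fin_cases i
  · change x 0 = x 1 * (x 0 / x 1)
    rw [mul_div_cancel₀ _ h]
  · change x 1 = x 1 * 1
    rw [mul_one]

theorem vec_eq_inf (x : Fin 2 → k) (h : x 1 = 0) :
    x = fun i => x 0 * (![1, 0] : Fin 2 → k) i := by
  funext i
  fin_cases i
  · change x 0 = x 0 * 1
    rw [mul_one]
  · change x 1 = x 0 * 0
    rw [mul_zero, h]

variable (φ : k₀ →+* k) (c : Idx d → k₀)

theorem wr_map (a : Fin s) : wr (fun q => φ (c q)) a = (wr c a).map φ := (map_wr φ c a).symm

theorem pl_map (a : Fin s) (i : Fin 2) : pl (fun q => φ (c q)) a i = (pl c a i).map φ :=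
  (map_pl φ c a i).symm

/-- there is a critical point -/
theorem exists_crit {c : Idx d → k₀} (hU : HypU c) (a : Fin s) (hd : 2 ≤ d a) :
    ∃ z, Polynomial.eval z (wr c a) = 0 := by
  have h1 : (wr c a).degree ≠ 0 := by
    intro h0
    have h2 := Polynomial.natDegree_eq_zero_iff_degree_le_zero.2 h0.le
    have h3 := Polynomial.le_natDegree_of_ne_zero (hU.top a)
    omega
  obtain ⟨z, hz⟩ := (hU.split a).exists_eval_eq_zero h1
  exact ⟨z, hz⟩

/-- no common zero -/
theorem nz {c : Idx d → k₀} (hU : HypU c) (a : Fin s) (hd : 2 ≤ d a) (x : Fin 2 → k) (hx : x ≠ 0) :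
    ev (form (fun q => φ (c q)) a) x ≠ 0 := by
  intro h0
  obtain ⟨z, hz⟩ := exists_crit hU a hd
  have h1 : ∀ i, eval x (form (fun q => φ (c q)) a i) = 0 := fun i => congrFun h0 i
  by_cases hx1 : x 1 = 0
  · have hx0 : x 0 ≠ 0 := by
      intro h
      apply hx
      funext i
      fin_cases i
      · exact h
      · exact hx1
    have h2 : ∀ i, lc c a i = 0 := by
      intro i
      have h3 := h1 i
      rw [vec_eq_inf x hx1, eval_smul_homog (form_homog _ a i), eval_form_inf] at h3
      have h4 := (mul_eq_zero.1 h3).resolve_left (pow_ne_zero _ hx0)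
      exact (map_eq_zero φ).1 h4
    apply hU.lead a a z hz
    rw [h2, h2, mul_zero]
  · have h2 : ∀ i, ((pl c a i).map φ).eval (x 0 / x 1) = 0 := by
      intro i
      have h3 := h1 i
      rw [vec_eq_fin x hx1, eval_smul_homog (form_homog _ a i), eval_form_one, pl_map] at h3
      exact (mul_eq_zero.1 h3).resolve_left (pow_ne_zero _ hx1)
    have hw : ((wr c a).map φ).IsRoot (x 0 / x 1) := by
      rw [Polynomial.IsRoot.def, ← wr_map, wr, Polynomial.eval_sub, Polynomial.eval_mul,
        Polynomial.eval_mul, pl_map, pl_map, h2, h2, mul_zero, zero_mul, sub_zero]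
    have hw0 : wr c a ≠ 0 := by
      intro h
      apply hU.top a
      rw [h, Polynomial.coeff_zero]
    obtain ⟨v, hv⟩ := (hU.split a).mem_range_of_isRoot hw0 hw
    have h3 : ∀ i, (pl c a i).eval v = 0 := by
      intro i
      have h4 := h2 i
      rw [← hv, Polynomial.eval_map, Polynomial.eval₂_at_apply] at h4
      exact (map_eq_zero φ).1 h4
    apply hU.nofib a a z v hz
    rw [h3, h3, mul_zero]

/-- the Jacobian determinant vanishes at the critical points only -/
theorem crit {c : Idx d → k₀} (hU : HypU c) (a : Fin s) (hd : 2 ≤ d a) (x : Fin 2 → k) (hx : x ≠ 0)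
    (hdet : (jac (form (fun q => φ (c q)) a) x).det = 0) :
    ∃ z, Polynomial.eval z (wr c a) = 0 ∧ x 1 ≠ 0 ∧ x 0 = φ z * x 1 := by
  have hdk : (d a : k) ≠ 0 := by
    have h1 := hU.char a
    rw [← map_natCast φ]
    exact fun h => h1 ((map_eq_zero φ).1 h)
  set ck : Idx d → k := fun q => φ (c q) with hck
  have hsc : ∀ (t : k) (y : Fin 2 → k), (jac (form ck a) (fun i => t * y i)).det =
      (t ^ (d a - 1)) ^ 2 * (jac (form ck a) y).det := by
    intro t y
    have h1 : ∀ i j, jac (form ck a) (fun i => t * y i) i j =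
        t ^ (d a - 1) * jac (form ck a) y i j := by
      intro i j
      rw [jac, Matrix.of_apply, eval_smul_homog ((form_homog ck a i).pderiv)]
      rfl
    rw [Matrix.det_fin_two, Matrix.det_fin_two, h1, h1, h1, h1]
    ring
  have hEul : ∀ (i : Fin 2) (y : Fin 2 → k), y 0 * eval y (pderiv 0 (form ck a i)) +
      y 1 * eval y (pderiv 1 (form ck a i)) = d a * eval y (form ck a i) := by
    intro i y
    have h1 := congrArg (eval y) (form_homog ck a i).sum_X_mul_pderiv
    rw [Fin.sum_univ_two, map_add, map_mul, map_mul, eval_X, eval_X, nsmul_eq_mul, map_mul,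
      map_natCast] at h1
    exact h1
  by_cases hx1 : x 1 = 0
  · exfalso
    have hx0 : x 0 ≠ 0 := by
      intro h
      apply hx
      funext i
      fin_cases i
      · exact h
      · exact hx1
    rw [vec_eq_inf x hx1, hsc] at hdet
    have h1 := (mul_eq_zero.1 hdet).resolve_left (pow_ne_zero _ (pow_ne_zero _ hx0))
    have h2 : ∀ i, eval ![1, 0] (pderiv 0 (form ck a i)) = d a * lc ck a i := by
      intro i
      have h3 := hEul i ![1, 0]
      rw [eval_form_inf] at h3
      simpa using h3
    rw [Matrix.det_fin_two] at h1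
    simp only [jac, Matrix.of_apply] at h1
    rw [h2, h2, eval_pderiv_one_inf _ _ _ (by omega), eval_pderiv_one_inf _ _ _ (by omega)] at h1
    have h4 := coeff_wr_top ck a hd
    have h5 : (wr ck a).coeff (2 * d a - 2) = 0 := by
      have h6 : (d a : k) * (wr ck a).coeff (2 * d a - 2) = 0 := by
        rw [h4, ← h1]
        ring
      exact (mul_eq_zero.1 h6).resolve_left hdk
    rw [hck, wr_map, Polynomial.coeff_map] at h5
    exact hU.top a ((map_eq_zero φ).1 h5)
  · rw [vec_eq_fin x hx1, hsc] at hdet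
    have h1 := (mul_eq_zero.1 hdet).resolve_left (pow_ne_zero _ (pow_ne_zero _ hx1))
    set u := x 0 / x 1 with hu
    have h2 : ∀ i, eval ![u, 1] (pderiv 1 (form ck a i)) =
        d a * (pl ck a i).eval u - u * (Polynomial.derivative (pl ck a i)).eval u := by
      intro i
      have h3 := hEul i ![u, 1]
      rw [eval_form_one, eval_pderiv_zero] at h3
      have h4 : u * (Polynomial.derivative (pl ck a i)).eval u +
          1 * eval ![u, 1] (pderiv 1 (form ck a i)) = d a * (pl ck a i).eval u := h3
      linear_combination h4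
    rw [Matrix.det_fin_two] at h1
    simp only [jac, Matrix.of_apply] at h1
    rw [h2, h2, eval_pderiv_zero, eval_pderiv_zero] at h1
    have h5 : (wr ck a).eval u = 0 := by
      have h6 : (d a : k) * (wr ck a).eval u = 0 := by
        rw [wr, Polynomial.eval_sub, Polynomial.eval_mul, Polynomial.eval_mul]
        linear_combination h1
      exact (mul_eq_zero.1 h6).resolve_left hdk
    have hw0 : wr c a ≠ 0 := by
      intro h
      apply hU.top a
      rw [h, Polynomial.coeff_zero]
    rw [hck, wr_map] at h5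
    obtain ⟨z, hz⟩ := (hU.split a).mem_range_of_isRoot hw0 h5
    refine ⟨z, ?_, hx1, ?_⟩
    · rw [← hz, Polynomial.eval_map, Polynomial.eval₂_at_apply] at h5
      exact (map_eq_zero φ).1 h5
    · rw [hz, hu, div_mul_cancel₀ _ hx1]

/-- proportional to a rational vector -/
def Rat (x : Fin 2 → k) : Prop :=
  ∃ (t : k) (y : Fin 2 → k₀), t ≠ 0 ∧ y ≠ 0 ∧ x = fun i => t * φ (y i)

theorem ev_form_map (a : Fin s) (t : k) (y : Fin 2 → k₀) :
    ev (form (fun q => φ (c q)) a) (fun i => t * φ (y i)) =
      fun i => t ^ d a * φ (ev (form c a) y i) := by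
  funext i
  rw [ev, eval_smul_homog (form_homog _ a i), ← map_form φ c a i, eval_map, ev,
    show (fun i => φ (y i)) = φ ∘ y from rfl, eval₂_comp]

theorem rat_form {c : Idx d → k₀} (hU : HypU c) (a : Fin s) (hd : 2 ≤ d a) (x : Fin 2 → k)
    (hx : Rat φ x) : Rat φ (ev (form (fun q => φ (c q)) a) x) := by
  obtain ⟨t, y, ht, hy, rfl⟩ := hx
  refine ⟨t ^ d a, ev (form c a) y, pow_ne_zero _ ht, ?_, ev_form_map φ c a t y⟩
  exact nz (RingHom.id k₀) hU a hd y hy

theorem rat_word {c : Idx d → k₀} (hU : HypU c) (hd : ∀ a, 2 ≤ d a) (w : List (Fin s))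
    (x : Fin 2 → k) (hx : Rat φ x) : Rat φ (ev (word (fun q => φ (c q)) w) x) := by
  induction w with
  | nil => rwa [ev_word_nil]
  | cons a w ih =>
    rw [ev_word_cons]
    exact rat_form φ hU a (hd a) _ ih

theorem nz_word {c : Idx d → k₀} (hU : HypU c) (hd : ∀ a, 2 ≤ d a) (w : List (Fin s))
    (x : Fin 2 → k) (hx : x ≠ 0) : ev (word (fun q => φ (c q)) w) x ≠ 0 := by
  induction w with
  | nil => rwa [ev_word_nil]
  | cons a w ih =>
    rw [ev_word_cons]
    exact nz φ hU a (hd a) _ ih

/-- no rational vector is mapped to a critical point -/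
theorem nofib' {c : Idx d → k₀} (hU : HypU c) (a b : Fin s) (z : k₀)
    (hz : Polynomial.eval z (wr c a) = 0) (x : Fin 2 → k) (hx : Rat φ x)
    (h1 : ev (form (fun q => φ (c q)) b) x 0 = φ z * ev (form (fun q => φ (c q)) b) x 1) :
    False := by
  obtain ⟨t, y, ht, hy, rfl⟩ := hx
  rw [ev_form_map] at h1
  have h2 : ev (form c b) y 0 = z * ev (form c b) y 1 := by
    apply φ.injective
    rw [map_mul]
    apply mul_left_cancel₀ (pow_ne_zero (d b) ht)
    change t ^ d b * φ (ev (form c b) y 0) = φ z * (t ^ d b * φ (ev (form c b) y 1)) at h1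
    rw [h1]
    ring
  by_cases hy1 : y 1 = 0
  · have hy0 : y 0 ≠ 0 := by
      intro h
      apply hy
      funext i
      fin_cases i
      · exact h
      · exact hy1
    rw [vec_eq_inf y hy1] at h2
    simp only [ev] at h2
    rw [eval_smul_homog (form_homog _ b 0), eval_smul_homog (form_homog _ b 1), eval_form_inf,
      eval_form_inf] at h2
    apply hU.lead a b z hz
    apply mul_left_cancel₀ (pow_ne_zero (d b) hy0)
    rw [h2]
    ring
  · rw [vec_eq_fin y hy1] at h2
    simp only [ev] at h2
    rw [eval_smul_homog (form_homog _ b 0), eval_smul_homog (form_homog _ b 1), eval_form_one,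
      eval_form_one] at h2
    apply hU.nofib a b z (y 0 / y 1) hz
    apply mul_left_cancel₀ (pow_ne_zero (d b) hy1)
    rw [h2]
    ring

end letters

/-- **Block D2**: the compositions are good. -/
theorem blockD2 {s : ℕ} {d : Fin s → ℕ} {k₀ : Type} [Field k₀] (hd : ∀ a, 2 ≤ d a)
    (c : Idx d → k₀) (hc : HypU c) (w : List (Fin s)) : GoodF (word c w) := by
  intro k _ φ x hx
  set ck : Idx d → k := fun q => φ (c q) with hck
  have hgm : gm φ (word c w) = ev (word ck w) := by
    funext y i
    change eval₂Hom φ y (word c w i) = eval y (word ck w i)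
    rw [← map_word φ c w i, eval_map]
    rfl
  rw [hgm]
  refine ⟨nz_word φ hc hd w x hx, ?_⟩
  intro m hm hper hdet
  have hjac : (Matrix.of fun i j => eval₂Hom φ x (pderiv j (word c w i))) = jac (word ck w) x := by
    ext i j
    rw [jac, Matrix.of_apply, Matrix.of_apply, ← map_word φ c w i, pderiv_map, eval_map]
    rfl
  rw [hjac] at hdet
  obtain ⟨v, a, u, hw, h1⟩ := exists_letter ck w x hdet
  set x' := ev (word ck u) x with hx'
  have hx'0 : x' ≠ 0 := nz_word φ hc hd u x hx
  obtain ⟨z, hz, hz1, hz0⟩ := crit φ hc a (hd a) x' hx'0 h1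
  have hrat : Rat φ x' := by
    refine ⟨x' 1, ![z, 1], hz1, fun h => ?_, ?_⟩
    · have h2 : (1 : k₀) = 0 := congrFun h 1
      exact one_ne_zero h2
    · funext i
      fin_cases i
      · change x' 0 = x' 1 * φ z
        rw [hz0, mul_comm]
      · change x' 1 = x' 1 * φ 1
        rw [map_one, mul_one]
  obtain ⟨m', rfl⟩ : ∃ m', m = m' + 1 := ⟨m - 1, by omega⟩
  obtain ⟨U, hU⟩ := exists_iterate_word ck w m'
  have hloop : ev (word ck (u ++ (U ++ (v ++ [a])))) x' = x' := by
    rw [ev_word_append, ev_word_append, ev_word_append, ev_word_cons, ev_word_nil, hU]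
    have h2 : ev (word ck v) (ev (form ck a) x') = ev (word ck w) x := by
      rw [hw, ev_word_append, ev_word_cons]
    rw [h2, ← Function.iterate_succ_apply, hper]
  obtain ⟨b, L, hL⟩ : ∃ b L, u ++ (U ++ (v ++ [a])) = b :: L := by
    cases hcase : u ++ (U ++ (v ++ [a])) with
    | nil => simp at hcase
    | cons b L => exact ⟨b, L, rfl⟩
  rw [hL, ev_word_cons] at hloop
  refine nofib' φ hc a b z hz _ (rat_word φ hc hd L x' hrat) ?_
  rw [hloop]
  exact hz0

end

end Pool.Agent.Helper61.TH
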