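import Mathlib
import Pool.Agent.Helper61.TH.DefsD
import Pool.Agent.Helper61.TH.Good2

/-!
# TH: the dichotomy for split maps given by words (block D1)
-/

set_option autoImplicit false

namespace Pool.Agent.Helper61.TH

open MvPolynomial Pool.Agent.Helper86.DML Pool.Agent.Helper26.FD
open Pool.Agent.Helper26.FU (MultiHom GoodPad bd main_loc expSet support_subset_expSet eval_multi)
open Pool.Agent.Helper26.FV (iterate_scale_pt)
open Pool.Agent.Helper87.FK (Oc mem_Oc)

noncomputable section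

variable {s : ℕ} {d : Fin s → ℕ}

/-- the degree of the composition along a word -/
def wdeg (d : Fin s → ℕ) (w : List (Fin s)) : ℕ := (w.map d).prod

theorem word_homog {R : Type*} [CommRing R] (c : Idx d → R) (w : List (Fin s)) (i : Fin 2) :
    (word c w i).IsHomogeneous (wdeg d w) := by
  induction w generalizing i with
  | nil => exact isHomogeneous_X R i
  | cons a w ih =>
    have h1 := (form_homog c a i).aeval (word c w) ih
    rw [wdeg, List.map_cons, List.prod_cons, mul_comm]
    exact h1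

theorem wdeg_le {dm : ℕ} (hdm : ∀ a, d a ≤ dm) (w : List (Fin s)) : wdeg d w ≤ dm ^ w.length := by
  induction w with
  | nil => exact le_rfl
  | cons a w ih =>
    rw [wdeg, List.map_cons, List.prod_cons, List.length_cons, pow_succ']
    exact Nat.mul_le_mul (hdm a) ih

/-- the coefficients of the words lie in the ring generated by the coefficients -/
theorem coeff_word_mem {R : Type*} [CommRing R] (T : Subring R) (c : Idx d → R)
    (hc : ∀ q, c q ∈ T) (w : List (Fin s)) (i : Fin 2) (t : Fin 2 →₀ ℕ) :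
    coeff t (word c w i) ∈ T := by
  have h1 : word c w i = map T.subtype (word (fun q => (⟨c q, hc q⟩ : T)) w i) := by
    rw [map_word]
    rfl
  rw [h1, coeff_map]
  exact (coeff t (word (fun q => (⟨c q, hc q⟩ : T)) w i)).2

/-- **D1**: the dichotomy for split maps given by words. -/
theorem blockD1 {p : ℕ} [Fact p.Prime] (hp3 : 3 ≤ p) {s : ℕ} (d : Fin s → ℕ)
    (k l D δ : ℕ) : ∃ B : ℕ,
    ∀ (L : Subalgebra ℚ_[p] (PadicAlgCl p)) [FiniteDimensional ℚ_[p] L],
      Module.finrank ℚ_[p] L ≤ D →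
    ∀ (c : Idx d → ℂ) (τ : ℂ →+* PadicAlgCl p), (∀ q, ‖τ (c q)‖ ≤ 1) → (∀ q, τ (c q) ∈ L) →
    ∀ w : Fin k → List (Fin s), (∀ b, (w b).length = l) →
      (∀ b, GoodPad (L : Set (PadicAlgCl p)) (fun i => MvPolynomial.map τ (word c (w b) i))) →
    ∀ α : Fin k → Fin 2 → ℂ, (∀ b, α b ≠ 0) → (∀ b i j, τ (α b i / α b j) ∈ L) →
      Dich k (bd (k * 2) p D) ((bd (k * 2) p D).factorial * (bd (k * 2) p D).factorial) B δ
        (fun m b => (pmap (word c (w b)))^[m] (α b)) := by
  classical
  let dm : ℕ := (∑ a, d a) + 1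
  have hdm : ∀ a, d a ≤ dm := fun a =>
    (Finset.single_le_sum (fun i _ => Nat.zero_le (d i)) (Finset.mem_univ a)).trans (Nat.le_succ _)
  have hdm1 : 1 ≤ dm := Nat.le_add_left 1 _
  obtain ⟨K, hK⟩ := main_loc hp3 k 2 (dm ^ l) D (Nat.one_le_pow _ _ hdm1) (expSet k 2 δ)
  refine ⟨K, ?_⟩
  intro L _ hL c τ hc1 hcL w hw hgood α hα hαL G hG hGδ r
  obtain ⟨g, hg⟩ := hG
  let P : Fin k → Fin 2 → MvPolynomial (Fin 2) ℂ := fun b => word c (w b)
  have hmapP : ∀ b i, MvPolynomial.map τ (P b i) = word (fun q => τ (c q)) (w b) i :=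
    fun b i => map_word τ c (w b) i
  -- the largest coordinates
  have hmax : ∀ b, ∃ i₀, ∀ i, ‖τ (α b i)‖ ≤ ‖τ (α b i₀)‖ := by
    intro b
    obtain ⟨i₀, -, h⟩ := Finset.exists_max_image Finset.univ (fun i => ‖τ (α b i)‖)
      Finset.univ_nonempty
    exact ⟨i₀, fun i => h i (Finset.mem_univ i)⟩
  choose i₀ hmax using hmax
  have hα0 : ∀ b, τ (α b (i₀ b)) ≠ 0 := by
    intro b h
    apply hα b
    funext i
    have h1 := hmax b i
    rw [h, norm_zero] at h1
    exact (map_eq_zero τ).1 (norm_le_zero_iff.1 h1)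
  have hα0' : ∀ b, α b (i₀ b) ≠ 0 := fun b h => hα0 b (by rw [h, map_zero])
  let β : Fin k → Fin 2 → PadicAlgCl p := fun b i => τ (α b i / α b (i₀ b))
  have hβ : ∀ b i, ‖β b i‖ ≤ 1 := by
    intro b i
    simp only [β]
    rw [map_div₀, norm_div, div_le_one (norm_pos_iff.2 (hα0 b))]
    exact hmax b i
  have hβ1 : ∀ b, β b (i₀ b) = 1 := by
    intro b
    simp only [β]
    rw [div_self (hα0' b), map_one]
  have h1 := hK L hL (fun b i => MvPolynomial.map τ (P b i)) (by
    intro b i t
    rw [hmapP]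
    exact mem_Oc.1 (coeff_word_mem (Oc p).toSubring _ (fun q => mem_Oc.2 (hc1 q)) (w b) i t)) (by
    intro b i t
    rw [hmapP]
    exact coeff_word_mem L.toSubring _ (fun q => hcL q) (w b) i t) (by
    intro b i
    have h2 := ((word_homog c (w b) i).map τ).totalDegree_le
    refine h2.trans ((wdeg_le hdm (w b)).trans ?_)
    rw [hw b]) hgood β hβ (fun b i => hαL b i (i₀ b))
    (fun b => ⟨i₀ b, by rw [hβ1, norm_one]⟩)
    (MvPolynomial.map τ G)
    ((support_map_subset _ _).trans (support_subset_expSet hGδ)) r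
  -- comparison
  have hβt : ∀ b, β b = fun i => (τ (α b (i₀ b)))⁻¹ * τ (α b i) := by
    intro b
    funext i
    simp only [β]
    rw [map_div₀, div_eq_inv_mul]
  have hiff : ∀ m, eval (fun q : Fin k × Fin 2 =>
      (pmap (fun i => MvPolynomial.map τ (P q.1 i)))^[m] (β q.1) q.2) (MvPolynomial.map τ G) = 0 ↔
      eval (fun q : Fin k × Fin 2 => (pmap (P q.1))^[m] (α q.1) q.2) G = 0 := by
    intro m
    have h2 : ∀ b, ∃ l : PadicAlgCl p, l ≠ 0 ∧
        (pmap (fun i => MvPolynomial.map τ (P b i)))^[m] (β b) =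
        fun i => l * τ ((pmap (P b))^[m] (α b) i) := by
      intro b
      rw [hβt]
      obtain ⟨l, hl, h2⟩ := iterate_scale_pt (P := fun i => MvPolynomial.map τ (P b i))
        (d := wdeg d (w b)) (fun i => (word_homog c (w b) i).map τ) (inv_ne_zero (hα0 b))
        (fun i => τ (α b i)) m
      rw [h2, Pool.Agent.Helper87.LD.pmap_map_iterate]
      exact ⟨l, hl, rfl⟩
    choose l hl h2 using h2
    simp only [h2]
    have h3 := eval_multi (MultiHom.map hg τ) l
      (fun b i => τ ((pmap (P b))^[m] (α b) i))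
    have h4 : eval (fun q : Fin k × Fin 2 => τ ((pmap (P q.1))^[m] (α q.1) q.2))
        (MvPolynomial.map τ G) =
        τ (eval (fun q : Fin k × Fin 2 => (pmap (P q.1))^[m] (α q.1) q.2) G) := by
      rw [eval_map, eval₂_comp]
      rfl
    rw [h3, h4]
    constructor
    · intro h5
      exact (map_eq_zero τ).1 ((mul_eq_zero.1 h5).resolve_left
        (Finset.prod_ne_zero_iff.2 fun b _ => pow_ne_zero _ (hl b)))
    · intro h5
      rw [h5, map_zero, mul_zero]
  simp only [hiff] at h1
  exact h1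

end

end Pool.Agent.Helper61.TH
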