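import Mathlib
import Pool.Agent.Helper61.TH.Defs
import Pool.Agent.Helper10.UL.Thin

/-!
# TH: specialisation outside a thin set (block B)
-/

set_option autoImplicit false

namespace Pool.Agent.Helper61.TH

open Polynomial Pool.Agent.Helper37.UL

noncomputable section

variable {K : Type} [Field K] {I : Type} {J : Type} {U : Ultrafilter J}
  {S : Type} [Field S] {π : (J → AlgebraicClosure K) →+* S} {vv : J → I → K}

/-- evaluation of a polynomial at a germ -/
theorem eval₂_germ (Q : (MvPolynomial I K)[X]) (f : J → AlgebraicClosure K) :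
    eval₂ (UL.evg π vv) (π f) Q =
      π fun j => aeval (f j) (Q.map (MvPolynomial.eval (vv j))) := by
  rw [UL.eval₂_evg]
  congr 1
  funext j
  rw [aeval_def, eval₂_map]

/-- germs with values in `K` which are algebraic over the field of the generic vector -/
theorem mem_range_of_integral (h : UP U π)
    (hU2 : ∀ Q : (MvPolynomial I K)[X], 2 ≤ Q.natDegree →
        Irreducible (Q.map (algebraMap (MvPolynomial I K) (FractionRing (MvPolynomial I K)))) →
        ∀ᶠ j in (U : Filter J), ∀ x : K, eval₂ (MvPolynomial.eval (vv j)) x Q ≠ 0)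
    (e : FractionRing (MvPolynomial I K) →+* S)
    (he : ∀ Ψ : MvPolynomial I K, e (algebraMap _ _ Ψ) = UL.evg π vv Ψ) (g : J → K)
    (hint : e.IsIntegralElem (π fun j => algebraMap K (AlgebraicClosure K) (g j))) :
    (π fun j => algebraMap K (AlgebraicClosure K) (g j)) ∈ e.range := by
  classical
  let k := FractionRing (MvPolynomial I K)
  let _ : Algebra k S := e.toAlgebra
  set x := (π fun j => algebraMap K (AlgebraicClosure K) (g j)) with hx
  have hint : IsIntegral k x := hint
  set μ := minpoly k x with hμ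
  have hirr : Irreducible μ := minpoly.irreducible hint
  have hμ0 : μ ≠ 0 := hirr.ne_zero
  by_cases hdeg : μ.natDegree = 1
  · have h1 : μ.degree = 1 := by
      rw [degree_eq_natDegree hμ0, hdeg]; rfl
    obtain ⟨y, hy⟩ := minpoly.mem_range_of_degree_eq_one k x h1
    exact ⟨y, hy⟩
  · exfalso
    have hdeg2 : 2 ≤ μ.natDegree := by
      have := hirr.natDegree_pos
      omega
    obtain ⟨b, hbM, hb⟩ := IsLocalization.integerNormalization_spec
      (nonZeroDivisors (MvPolynomial I K)) μ
    set Q := IsLocalization.integerNormalization (nonZeroDivisors (MvPolynomial I K)) μ with hQ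
    have hb0 : algebraMap (MvPolynomial I K) k b ≠ 0 := by
      intro h0
      have h1 : b = 0 := (IsFractionRing.injective (MvPolynomial I K) k) (by rw [h0, map_zero])
      exact nonZeroDivisors.ne_zero hbM h1
    have hb' : Q.map (algebraMap (MvPolynomial I K) k) =
        C (algebraMap (MvPolynomial I K) k b) * μ := by
      rw [hb, ← smul_eq_C_mul, algebraMap_smul]
    have hQirr : Irreducible (Q.map (algebraMap (MvPolynomial I K) k)) := by
      rw [hb']
      exact (irreducible_isUnit_mul (isUnit_C.2 (isUnit_iff_ne_zero.2 hb0))).2 hirr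
    have hQdeg : 2 ≤ Q.natDegree := by
      rw [← natDegree_map_eq_of_injective (IsFractionRing.injective (MvPolynomial I K) k) Q, hb',
        natDegree_C_mul hb0]
      exact hdeg2
    have hroot : eval₂ (UL.evg π vv) x Q = 0 := by
      have h1 : eval₂ e x (Q.map (algebraMap (MvPolynomial I K) k)) = 0 := by
        rw [hb', eval₂_mul]
        have h2 : eval₂ e x μ = 0 := minpoly.aeval k x
        rw [h2, mul_zero]
      rw [eval₂_map] at h1
      have h2 : e.comp (algebraMap (MvPolynomial I K) k) = UL.evg π vv := RingHom.ext he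
      rwa [h2] at h1
    rw [hx, UL.eval₂_evg, h.eq0] at hroot
    obtain ⟨j, h1, h2⟩ := (hroot.and (hU2 Q hQdeg hQirr)).exists
    apply h2 (g j)
    rw [← hom_eval₂] at h1
    exact (map_eq_zero _).1 h1

/-- the polynomial over the ultrapower defined by polynomials over `K` -/
def ip (π : (J → AlgebraicClosure K) →+* S) (n : ℕ) (q : J → K[X]) : S[X] :=
  ∑ i ∈ Finset.range (n + 1), C (π fun j => algebraMap K (AlgebraicClosure K) ((q j).coeff i)) *
    X ^ i

theorem coeff_ip (n : ℕ) (q : J → K[X]) (i : ℕ) : (ip π n q).coeff i =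
    if i ≤ n then π fun j => algebraMap K (AlgebraicClosure K) ((q j).coeff i) else 0 := by
  rw [ip, finsetSum_coeff]
  simp only [coeff_C_mul, coeff_X_pow, mul_ite, mul_one, mul_zero]
  rw [Finset.sum_ite_eq]
  simp only [Finset.mem_range, Nat.lt_succ_iff]

theorem eval_ip (h : UP U π) {n : ℕ} {q : J → K[X]}
    (hq : ∀ᶠ j in (U : Filter J), (q j).natDegree ≤ n) (f : J → AlgebraicClosure K) :
    eval (π f) (ip π n q) = π fun j => aeval (f j) (q j) := by
  rw [ip, eval_finsetSum]
  simp only [eval_mul, eval_C, eval_pow, eval_X, ← map_pow, ← map_mul]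
  rw [← map_sum, h.eq_iff]
  filter_upwards [hq] with j hj
  rw [aeval_eq_sum_range' (Nat.lt_succ_of_le hj), Finset.sum_apply]
  refine Finset.sum_congr rfl fun i _ => ?_
  rw [Pi.mul_apply, Pi.pow_apply, Algebra.smul_def]

/-- **Conjugate germs are conjugate over `K`.** -/
theorem conj_ev [CharZero K] (h : UP U π)
    (hU : ∀ Ψ : MvPolynomial I K, Ψ ≠ 0 →
      ∀ᶠ j in (U : Filter J), MvPolynomial.eval (vv j) Ψ ≠ 0)
    (hU2 : ∀ Q : (MvPolynomial I K)[X], 2 ≤ Q.natDegree →
        Irreducible (Q.map (algebraMap (MvPolynomial I K) (FractionRing (MvPolynomial I K)))) →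
        ∀ᶠ j in (U : Filter J), ∀ x : K, eval₂ (MvPolynomial.eval (vv j)) x Q ≠ 0)
    (e : FractionRing (MvPolynomial I K) →+* S)
    (he : ∀ Ψ : MvPolynomial I K, e (algebraMap _ _ Ψ) = UL.evg π vv Ψ)
    {Ω : Type} [Field Ω] [Algebra (FractionRing (MvPolynomial I K)) Ω] (ε : Ω →+* S)
    (hε : ∀ x, ε (algebraMap (FractionRing (MvPolynomial I K)) Ω x) = e x)
    (γ : Ω ≃ₐ[FractionRing (MvPolynomial I K)] Ω) (θ : Ω)
    (hθ : IsIntegral (FractionRing (MvPolynomial I K)) θ)
    (t t' : J → AlgebraicClosure K) (ht : π t = ε θ) (ht' : π t' = ε (γ θ)) :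
    ∀ᶠ j in (U : Filter J),
      ∃ γ' : AlgebraicClosure K ≃ₐ[K] AlgebraicClosure K, γ' (t j) = t' j := by
  classical
  have hC0 : CharZero S := h.charZero
  let k := FractionRing (MvPolynomial I K)
  have hmap : ∀ (P : k[X]) (x : Ω), ε (aeval x P) = eval (ε x) (P.map e) := by
    intro P x
    rw [eval_map, aeval_def, hom_eval₂]
    congr 1
    exact RingHom.ext hε
  set μ := minpoly k θ with hμ
  have hμm : μ.Monic := minpoly.monic hθ
  obtain ⟨b, hbM, hb⟩ := IsLocalization.integerNormalization_spec
    (nonZeroDivisors (MvPolynomial I K)) μ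
  set Q := IsLocalization.integerNormalization (nonZeroDivisors (MvPolynomial I K)) μ with hQ
  have hbne : b ≠ 0 := nonZeroDivisors.ne_zero hbM
  have hb' : Q.map (algebraMap (MvPolynomial I K) k) =
      C (algebraMap (MvPolynomial I K) k b) * μ := by
    rw [hb, ← smul_eq_C_mul, algebraMap_smul]
  have hQe : Q.map (UL.evg π vv) = C (UL.evg π vv b) * μ.map e := by
    have h1 : (Q.map (algebraMap (MvPolynomial I K) k)).map e =
        C (e (algebraMap (MvPolynomial I K) k b)) * μ.map e := by
      rw [hb', Polynomial.map_mul, map_C]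
    rw [Polynomial.map_map, he] at h1
    rw [← h1]
    congr 1
    exact (RingHom.ext he).symm
  have hQ0 : Q ≠ 0 := by
    rintro h0
    rw [h0, Polynomial.map_zero] at hb'
    have h1 := mul_eq_zero.1 hb'.symm
    rcases h1 with h1 | h1
    · rw [C_eq_zero] at h1
      exact hbne (IsFractionRing.injective (MvPolynomial I K) k (by rw [h1, map_zero]))
    · exact hμm.ne_zero h1
  -- the specialisations
  let Qj : J → K[X] := fun j => Q.map (MvPolynomial.eval (vv j))
  have hQj0 : ∀ᶠ j in (U : Filter J), Qj j ≠ 0 := by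
    filter_upwards [hU _ (leadingCoeff_ne_zero.2 hQ0)] with j hj h0
    apply hj
    have h1 := congrArg (fun P => coeff P Q.natDegree) h0
    simpa [Qj, coeff_map] using h1
  have hQjt : ∀ᶠ j in (U : Filter J), aeval (t j) (Qj j) = 0 := by
    have h1 : eval₂ (UL.evg π vv) (π t) Q = 0 := by
      rw [← eval_map, hQe, eval_mul, ht, ← hmap, minpoly.aeval, map_zero, mul_zero]
    rw [eval₂_germ, h.eq0] at h1
    exact h1
  let m : J → K[X] := fun j => minpoly K (t j)
  have hint : ∀ j, IsIntegral K (t j) := fun j => (Algebra.IsAlgebraic.isAlgebraic (t j)).isIntegral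
  have hdvd : ∀ᶠ j in (U : Filter J), m j ∣ Qj j := by
    filter_upwards [hQjt] with j hj
    exact minpoly.dvd K (t j) hj
  have hdeg : ∀ᶠ j in (U : Filter J), ∃ i ∈ Set.Iic Q.natDegree, (m j).natDegree = i := by
    filter_upwards [hQj0, hdvd] with j h1 h2
    exact ⟨_, (natDegree_le_of_dvd h2 h1).trans natDegree_map_le, rfl⟩
  rw [Ultrafilter.eventually_exists_mem_iff (Set.finite_Iic _)] at hdeg
  obtain ⟨m₀, -, hm₀⟩ := hdeg
  -- the quotient
  let q : J → K[X] := fun j => Qj j /ₘ m j
  have hq : ∀ᶠ j in (U : Filter J), Qj j = m j * q j := by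
    filter_upwards [hdvd] with j h2
    have h3 := modByMonic_add_div (Qj j) (m j)
    rw [(modByMonic_eq_zero_iff_dvd (minpoly.monic (hint j))).2 h2, zero_add] at h3
    exact h3.symm
  have hqd : ∀ᶠ j in (U : Filter J), (q j).natDegree ≤ Q.natDegree := by
    filter_upwards [] with j
    rw [natDegree_divByMonic _ (minpoly.monic (hint j))]
    exact (Nat.sub_le _ _).trans natDegree_map_le
  set mS := ip π m₀ m with hmS
  set qS := ip π Q.natDegree q with hqS
  have hm₀' : ∀ᶠ j in (U : Filter J), (m j).natDegree ≤ m₀ := by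
    filter_upwards [hm₀] with j hj
    exact hj.le
  have hprod : mS * qS = Q.map (UL.evg π vv) := by
    apply Polynomial.funext
    intro x
    obtain ⟨f, rfl⟩ := h.surj x
    rw [eval_mul, eval_ip h hm₀', eval_ip h hqd, ← map_mul, eval_map, eval₂_germ, h.eq_iff]
    filter_upwards [hq] with j hj
    rw [Pi.mul_apply, ← map_mul, ← hj]
  have hmonic : mS.Monic := by
    apply monic_of_natDegree_le_of_coeff_eq_one m₀
    · rw [natDegree_le_iff_coeff_eq_zero]
      intro i hi
      rw [coeff_ip, if_neg (not_le.2 hi)]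
    · rw [coeff_ip, if_pos le_rfl, ← map_one π, h.eq_iff]
      filter_upwards [hm₀] with j hj
      have h1 := (minpoly.monic (hint j)).coeff_natDegree
      rw [show (minpoly K (t j)).natDegree = m₀ from hj] at h1
      rw [Pi.one_apply, ← map_one (algebraMap K (AlgebraicClosure K))]
      exact congrArg _ h1
  let _ : Algebra k S := e.toAlgebra
  have hb0 : UL.evg π vv b ≠ 0 := by
    rw [UL.evg_apply, h.ne0]
    filter_upwards [hU b hbne] with j hj h0
    exact hj ((map_eq_zero _).1 h0)
  have hdvdS : mS ∣ μ.map (algebraMap k S) := by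
    have h1 : mS ∣ C (UL.evg π vv b) * μ.map e := by
      rw [← hQe, ← hprod]
      exact dvd_mul_right _ _
    exact (IsUnit.dvd_mul_left (isUnit_C.2 (isUnit_iff_ne_zero.2 hb0))).1 h1
  have hlifts := integralClosure.mem_lifts_of_monic_of_dvd_map S hμm hmonic hdvdS
  rw [lifts_iff_coeff_lifts] at hlifts
  have hlifts2 : mS ∈ lifts e := by
    rw [lifts_iff_coeff_lifts]
    intro i
    obtain ⟨z, hz⟩ := hlifts i
    have hzint : e.IsIntegralElem (mS.coeff i) := by
      have h1 : IsIntegral k (z : S) := z.2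
      have h2 : (z : S) = mS.coeff i := hz
      rw [h2] at h1
      exact h1
    rw [coeff_ip] at hzint ⊢
    split_ifs at hzint ⊢ with hi
    · exact mem_range_of_integral h hU2 e he (fun j => (m j).coeff i) hzint
    · exact ⟨0, map_zero e⟩
  obtain ⟨P, hP⟩ := (mem_lifts _).1 hlifts2
  have h1 : aeval θ P = 0 := by
    apply ε.injective
    rw [hmap, hP, map_zero, ← ht, eval_ip h hm₀', h.eq0]
    exact Filter.Eventually.of_forall fun j => minpoly.aeval K (t j)
  have h2 : aeval (γ θ) P = 0 := by
    have h3 : aeval (γ.toAlgHom θ) P = γ.toAlgHom (aeval θ P) := aeval_algHom_apply _ _ _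
    rw [h1, map_zero] at h3
    exact h3
  have h3 : π (fun j => aeval (t' j) (m j)) = 0 := by
    rw [← eval_ip h hm₀', ht', ← hmS, ← hP, ← hmap, h2, map_zero]
  rw [h.eq0] at h3
  filter_upwards [h3] with j hj
  exact (isConjRoot_of_aeval_eq_zero (hint j) hj).symm.exists_algEquiv

end

end Pool.Agent.Helper61.TH
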