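import Mathlib
import Pool.Agent.Helper61.TH.Spec

/-!
# TH: specialisation outside a thin set (block B), II
-/

set_option autoImplicit false

namespace Pool.Agent.Helper61.TH

open Polynomial Pool.Agent.Helper37.UL

noncomputable section

theorem coeff_pl {s : ℕ} {d : Fin s → ℕ} {R : Type*} [CommRing R] (c : Idx d → R) (a : Fin s)
    (i : Fin 2) : (pl c a i).coeff (d a) = lc c a i := by
  rw [pl, finsetSum_coeff, Finset.sum_eq_single (Fin.last (d a))]
  · rw [coeff_C_mul, coeff_X_pow, Fin.val_last, if_pos rfl, mul_one, lc]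
  · intro j _ hj
    rw [coeff_C_mul, coeff_X_pow, if_neg, mul_zero]
    intro h
    exact hj (Fin.ext h.symm)
  · intro h
    exact absurd (Finset.mem_univ _) h

section germ

variable {K : Type} [Field K] {I : Type} {J : Type} {U : Ultrafilter J}
  {S : Type} [Field S] {π : (J → AlgebraicClosure K) →+* S} {vv : J → I → K}

/-- conjugation of the germs of the elements of `k(θ)` -/
theorem transport (h : UP U π)
    (hU : ∀ Ψ : MvPolynomial I K, Ψ ≠ 0 →
      ∀ᶠ j in (U : Filter J), MvPolynomial.eval (vv j) Ψ ≠ 0)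
    (e : FractionRing (MvPolynomial I K) →+* S)
    (he : ∀ Ψ : MvPolynomial I K, e (algebraMap _ _ Ψ) = UL.evg π vv Ψ)
    {Ω : Type} [Field Ω] [Algebra (FractionRing (MvPolynomial I K)) Ω] (ε : Ω →+* S)
    (hε : ∀ x, ε (algebraMap (FractionRing (MvPolynomial I K)) Ω x) = e x)
    (γ : Ω ≃ₐ[FractionRing (MvPolynomial I K)] Ω)
    (rp : Ω → J → AlgebraicClosure K) (hrp : ∀ x, π (rp x) = ε x) (θ x : Ω)
    (g₀ : (FractionRing (MvPolynomial I K))[X]) (hx : x = aeval θ g₀) :
    ∀ᶠ j in (U : Filter J), ∀ γ' : AlgebraicClosure K ≃ₐ[K] AlgebraicClosure K,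
      γ' (rp θ j) = rp (γ θ) j → γ' (rp x j) = rp (γ x) j := by
  obtain ⟨b, hbM, hb⟩ := IsLocalization.integerNormalization_spec
    (nonZeroDivisors (MvPolynomial I K)) g₀
  set g := IsLocalization.integerNormalization (nonZeroDivisors (MvPolynomial I K)) g₀ with hg
  have hbne : b ≠ 0 := nonZeroDivisors.ne_zero hbM
  have hb' : g.map (algebraMap (MvPolynomial I K) (FractionRing (MvPolynomial I K))) =
      C (algebraMap (MvPolynomial I K) _ b) * g₀ := by
    rw [hb, ← smul_eq_C_mul, algebraMap_smul]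
  have key : ∀ θ x : Ω, x = aeval θ g₀ → ∀ᶠ j in (U : Filter J),
      algebraMap K (AlgebraicClosure K) (MvPolynomial.eval (vv j) b) * rp x j =
        aeval (rp θ j) (g.map (MvPolynomial.eval (vv j))) := by
    intro θ x hx
    have h1 : UL.evg π vv b * ε x = eval₂ (UL.evg π vv) (ε θ) g := by
      have h2 : (e.comp (algebraMap (MvPolynomial I K) _)) = UL.evg π vv := RingHom.ext he
      have h3 : (ε.comp (algebraMap (FractionRing (MvPolynomial I K)) Ω)) = e := RingHom.ext hε
      rw [← h2, ← eval₂_map, hb', eval₂_mul, eval₂_C, RingHom.comp_apply, hx, aeval_def,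
        hom_eval₂, h3]
    rw [← hrp, ← hrp, eval₂_germ, UL.evg_apply, ← map_mul, h.eq_iff] at h1
    exact h1
  have hγ : γ x = aeval (γ θ) g₀ := by
    have h3 : aeval (γ.toAlgHom θ) g₀ = γ.toAlgHom (aeval θ g₀) := aeval_algHom_apply _ _ _
    rw [← hx] at h3
    exact h3.symm
  filter_upwards [key θ x hx, key (γ θ) (γ x) hγ, hU b hbne] with j h1 h2 h3 γ' hγ'
  have h4 := congrArg γ' h1
  rw [map_mul, AlgEquiv.commutes] at h4
  have h5 : γ' (aeval (rp θ j) (g.map (MvPolynomial.eval (vv j)))) =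
      aeval (rp (γ θ) j) (g.map (MvPolynomial.eval (vv j))) := by
    rw [← hγ']
    exact (aeval_algHom_apply γ'.toAlgHom (rp θ j) _).symm
  rw [h5, ← h2] at h4
  exact mul_left_cancel₀ (fun h0 => h3 ((map_eq_zero _).1 h0)) h4

end germ

/-- **Block B**: specialisation outside a thin set. -/
theorem blockB (K : Type) [Field K] [CharZero K] {s : ℕ} (d : Fin s → ℕ)
    (hA : ∃ γ : AlgebraicClosure (FractionRing (MvPolynomial (Idx d) K)) ≃ₐ[
        FractionRing (MvPolynomial (Idx d) K)]
        AlgebraicClosure (FractionRing (MvPolynomial (Idx d) K)),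
      Star (fun q => algebraMap (MvPolynomial (Idx d) K) (FractionRing (MvPolynomial (Idx d) K))
        (MvPolynomial.X q)) γ) :
    UL.IsThin {c : Idx d → K | ¬ ∃ γ : AlgebraicClosure K ≃ₐ[K] AlgebraicClosure K, Star c γ} := by
  classical
  by_contra hnt
  let C := AlgebraicClosure K
  let A := MvPolynomial (Idx d) K
  let k := FractionRing A
  let Ω := AlgebraicClosure k
  obtain ⟨γ, hγ⟩ := hA
  let J := {c : Idx d → K // ¬ ∃ γ : AlgebraicClosure K ≃ₐ[K] AlgebraicClosure K, Star c γ}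
  let vv : J → Idx d → K := Subtype.val
  have hrange : Set.range vv =
      {c : Idx d → K | ¬ ∃ γ : AlgebraicClosure K ≃ₐ[K] AlgebraicClosure K, Star c γ} :=
    Subtype.range_coe
  rw [← hrange] at hnt
  obtain ⟨U, hU, hU2⟩ := UL.exists_ultra_thin vv hnt
  obtain ⟨S, _, π, h⟩ := exists_up U C
  have hC0 : CharZero S := h.charZero
  have hS := h.isAlgClosed
  let e : k →+* S := IsFractionRing.lift (UL.evg_injective h hU)
  have he : ∀ Ψ : A, e (algebraMap _ _ Ψ) = UL.evg π vv Ψ := fun Ψ =>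
    IsFractionRing.lift_algebraMap (UL.evg_injective h hU) Ψ
  let _ : Algebra k S := e.toAlgebra
  let ε : Ω →ₐ[k] S := IsAlgClosed.lift
  have hε : ∀ x, (ε : Ω →+* S) (algebraMap k Ω x) = e x := fun x => ε.commutes x
  choose rp hrp using fun x : Ω => h.surj (ε x)
  set c₀ : Idx d → k := fun q => algebraMap A k (MvPolynomial.X q) with hc₀
  let cX : Idx d → A := fun q => MvPolynomial.X q
  -- the roots
  let Zs : Fin s → Finset Ω := fun a => ((wr c₀ a).aroots Ω).toFinset
  let fib : Fin s → Ω → Polynomial Ω := fun b z =>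
    (pl c₀ b 0).map (algebraMap k Ω) - Polynomial.C z * (pl c₀ b 1).map (algebraMap k Ω)
  let Ys : Fin s → Ω → Finset Ω := fun b z => (fib b z).roots.toFinset
  have hWne : ∀ a, wr c₀ a ≠ 0 := fun a h0 => hγ.top a (by rw [h0, coeff_zero])
  have hZ : ∀ a z, z ∈ Zs a ↔ aeval z (wr c₀ a) = 0 := by
    intro a z
    simp only [Zs, Multiset.mem_toFinset]
    rw [mem_aroots]
    exact and_iff_right (hWne a)
  have hfibne : ∀ a b z, z ∈ Zs a → fib b z ≠ 0 := by
    intro a b z hz h0
    have h1 := congrArg (fun P => coeff P (d b)) h0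
    simp only [fib, coeff_sub, coeff_C_mul, coeff_map, coeff_pl, coeff_zero] at h1
    exact hγ.lead a b z ((hZ a z).1 hz) (sub_eq_zero.1 h1)
  have hfibev : ∀ b z y, eval y (fib b z) = aeval y (pl c₀ b 0) - z * aeval y (pl c₀ b 1) := by
    intro b z y
    simp only [fib, eval_sub, eval_mul, eval_C, eval_map_algebraMap]
  have hY : ∀ a b z y, z ∈ Zs a →
      (y ∈ Ys b z ↔ aeval y (pl c₀ b 0) = z * aeval y (pl c₀ b 1)) := by
    intro a b z y hz
    simp only [Ys, Multiset.mem_toFinset]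
    rw [mem_roots (hfibne a b z hz), IsRoot.def, hfibev, sub_eq_zero]
  -- a primitive element
  let All : Finset Ω := (Finset.univ.biUnion Zs) ∪
    Finset.univ.biUnion fun b => (Finset.univ.biUnion Zs).biUnion (Ys b)
  let E : IntermediateField k Ω := IntermediateField.adjoin k (All : Set Ω)
  have hEfin : FiniteDimensional k E :=
    IntermediateField.finiteDimensional_adjoin fun x _ =>
      (Algebra.IsAlgebraic.isAlgebraic x).isIntegral
  let pb := Field.powerBasisOfFiniteOfSeparable k E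
  set θ : Ω := (pb.gen : Ω) with hθ
  have hpoly : ∀ x ∈ All, ∃ g₀ : k[X], x = aeval θ g₀ := by
    intro x hx
    obtain ⟨g, hg⟩ := pb.exists_eq_aeval' ⟨x, IntermediateField.subset_adjoin k _ hx⟩
    refine ⟨g, ?_⟩
    have h1 := congrArg (algebraMap E Ω) hg
    rw [← aeval_algebraMap_apply] at h1
    exact h1
  have hZAll : ∀ a, ∀ z ∈ Zs a, z ∈ All := fun a z hz =>
    Finset.mem_union_left _ (Finset.mem_biUnion.2 ⟨a, Finset.mem_univ _, hz⟩)
  have hYAll : ∀ a b, ∀ z ∈ Zs a, ∀ y ∈ Ys b z, y ∈ All := fun a b z hz y hy =>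
    Finset.mem_union_right _ (Finset.mem_biUnion.2 ⟨b, Finset.mem_univ _,
      Finset.mem_biUnion.2 ⟨z, Finset.mem_biUnion.2 ⟨a, Finset.mem_univ _, hz⟩, hy⟩⟩)
  -- (1) conjugation
  have e1 := conj_ev h hU hU2 e he (ε : Ω →+* S) hε γ θ
    (Algebra.IsAlgebraic.isAlgebraic θ).isIntegral (rp θ) (rp (γ θ)) (hrp θ) (hrp (γ θ))
  -- (2) transport
  have e2 : ∀ᶠ j in (U : Filter J), ∀ x ∈ All,
      ∀ γ' : C ≃ₐ[K] C, γ' (rp θ j) = rp (γ θ) j → γ' (rp x j) = rp (γ x) j := by
    rw [Filter.eventually_all_finset]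
    intro x hx
    obtain ⟨g₀, hg₀⟩ := hpoly x hx
    exact transport h hU e he (ε : Ω →+* S) hε γ rp hrp θ x g₀ hg₀
  have hev : ∀ (P : A[X]) (t : J → C), eval₂ e (π t) (P.map (algebraMap A k)) =
      π fun j => aeval (t j) (P.map (MvPolynomial.eval (vv j))) := by
    intro P t
    rw [eval₂_map, ← eval₂_germ]
    congr 1
    exact RingHom.ext he
  have hwrj : ∀ j a, (wr cX a).map (MvPolynomial.eval (vv j)) = wr (vv j) a := by
    intro j a
    rw [map_wr]
    congr 1
    funext q
    exact MvPolynomial.eval_X _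
  have hplj : ∀ j a i, (pl cX a i).map (MvPolynomial.eval (vv j)) = pl (vv j) a i := by
    intro j a i
    rw [map_pl]
    congr 1
    funext q
    exact MvPolynomial.eval_X _
  have hwr0 : ∀ a, (wr cX a).map (algebraMap A k) = wr c₀ a := fun a => map_wr _ _ a
  have hpl0 : ∀ a i, (pl cX a i).map (algebraMap A k) = pl c₀ a i := fun a i => map_pl _ _ a i
  -- (3) the points of the fibres are moved
  have e3 : ∀ᶠ j in (U : Filter J), ∀ b, ∀ a, ∀ z ∈ Zs a, ∀ y ∈ Ys b z,
      rp (γ y) j ≠ rp y j := by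
    rw [Filter.eventually_all]
    intro b
    rw [Filter.eventually_all]
    intro a
    rw [Filter.eventually_all_finset]
    intro z hz
    rw [Filter.eventually_all_finset]
    intro y hy
    rw [← h.ne_iff, hrp, hrp]
    intro h1
    exact hγ.move a b z y ((hZ a z).1 hz) ((hY a b z y hz).1 hy) (ε.injective h1)
  have e3' : ∀ᶠ j in (U : Filter J), ∀ a, ∀ z ∈ Zs a, rp (γ z) j = rp z j := by
    refine Filter.Eventually.of_forall fun j a z hz => ?_
    rw [hγ.fix a z ((hZ a z).1 hz)]
  -- (4) the top coefficient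
  have e4 : ∀ᶠ j in (U : Filter J), ∀ a, (wr (vv j) a).coeff (2 * d a - 2) ≠ 0 := by
    rw [Filter.eventually_all]
    intro a
    have h1 : (wr cX a).coeff (2 * d a - 2) ≠ 0 := by
      intro h0
      apply hγ.top a
      rw [← hwr0, coeff_map, h0, map_zero]
    filter_upwards [hU _ h1] with j hj
    rw [← hwrj, coeff_map]
    exact hj
  -- (5) the critical points
  have e5 : ∀ᶠ j in (U : Filter J), ∀ a, ∀ t : C, aeval t (wr (vv j) a) = 0 →
      ∃ z ∈ Zs a, t = rp z j := by
    rw [Filter.eventually_all]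
    intro a
    by_contra hn
    rw [← Ultrafilter.eventually_not] at hn
    have hn' : ∀ᶠ j in (U : Filter J), ∃ t : C, aeval t (wr (vv j) a) = 0 ∧
        ∀ z ∈ Zs a, t ≠ rp z j := by
      filter_upwards [hn] with j hj
      push Not at hj
      exact hj
    obtain ⟨t, ht⟩ := hn'.choice
    have h1 : eval₂ e (π t) (wr c₀ a) = 0 := by
      rw [← hwr0, hev, h.eq0]
      filter_upwards [ht] with j hj
      rw [hwrj]
      exact hj.1
    have h2 : (((wr c₀ a).map (algebraMap k Ω)).map (ε : Ω →+* S)).IsRoot (π t) := by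
      rw [IsRoot.def, eval_map, eval₂_map]
      rw [← h1]
      congr 1
      exact RingHom.ext hε
    obtain ⟨z, hz⟩ := (IsAlgClosed.splits ((wr c₀ a).map (algebraMap k Ω))).mem_range_of_isRoot
      ((Polynomial.map_ne_zero_iff (algebraMap k Ω).injective).2 (hWne a)) h2
    have hz0 : aeval z (wr c₀ a) = 0 := by
      apply ε.injective
      rw [map_zero, ← h1, ← hz, aeval_def]
      change (ε : Ω →+* S) _ = _
      rw [hom_eval₂]
      congr 1
      exact RingHom.ext hε
    have hzt : π (rp z) = π t := by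
      rw [hrp]
      exact hz
    rw [h.eq_iff] at hzt
    obtain ⟨j, hj1, hj2⟩ := (hzt.and ht).exists
    exact hj2.2 z ((hZ a z).2 hz0) hj1.symm
  -- (6) infinity
  have e6 : ∀ᶠ j in (U : Filter J), ∀ b, ∀ a, ∀ z ∈ Zs a,
      algebraMap K C (lc (vv j) b 0) ≠ rp z j * algebraMap K C (lc (vv j) b 1) := by
    rw [Filter.eventually_all]
    intro b
    rw [Filter.eventually_all]
    intro a
    rw [Filter.eventually_all_finset]
    intro z hz
    have h1 : ∀ i, e (lc c₀ b i) = π fun j => algebraMap K C (lc (vv j) b i) := by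
      intro i
      change e (algebraMap A k _) = _
      rw [he, UL.evg_apply]
      congr 1
      funext j
      rw [MvPolynomial.eval_X]
      rfl
    have h2 := h.ne_iff (fun j => algebraMap K C (lc (vv j) b 0))
      (rp z * fun j => algebraMap K C (lc (vv j) b 1))
    refine h2.1 ?_
    rw [map_mul, ← h1, ← h1, hrp]
    intro h3
    apply hγ.lead a b z ((hZ a z).1 hz)
    refine ε.injective ?_
    have h4 : ∀ x, ε (algebraMap k Ω x) = e x := hε
    change ε (algebraMap k Ω _) = ε (z * algebraMap k Ω _)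
    rw [map_mul, h4, h4]
    exact h3
  -- (7) the fibres
  have e7 : ∀ᶠ j in (U : Filter J), ∀ b, ∀ a, ∀ z ∈ Zs a, ∀ t : C,
      aeval t (pl (vv j) b 0) = rp z j * aeval t (pl (vv j) b 1) → ∃ y ∈ Ys b z, t = rp y j := by
    rw [Filter.eventually_all]
    intro b
    rw [Filter.eventually_all]
    intro a
    rw [Filter.eventually_all_finset]
    intro z hz
    by_contra hn
    rw [← Ultrafilter.eventually_not] at hn
    have hn' : ∀ᶠ j in (U : Filter J), ∃ t : C,
        aeval t (pl (vv j) b 0) = rp z j * aeval t (pl (vv j) b 1) ∧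
        ∀ y ∈ Ys b z, t ≠ rp y j := by
      filter_upwards [hn] with j hj
      push Not at hj
      exact hj
    obtain ⟨t, ht⟩ := hn'.choice
    have h1 : eval₂ e (π t) (pl c₀ b 0) = ε z * eval₂ e (π t) (pl c₀ b 1) := by
      rw [← hpl0, ← hpl0, hev, hev, ← hrp, ← map_mul, h.eq_iff]
      filter_upwards [ht] with j hj
      rw [Pi.mul_apply, hplj, hplj]
      exact hj.1
    have h3 : (ε : Ω →+* S).comp (algebraMap k Ω) = e := RingHom.ext hε
    have h2 : ((fib b z).map (ε : Ω →+* S)).IsRoot (π t) := by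
      rw [IsRoot.def]
      simp only [fib, Polynomial.map_sub, Polynomial.map_mul, map_C, eval_sub, eval_mul, eval_C,
        Polynomial.map_map, h3, eval_map]
      rw [h1]
      exact sub_self _
    obtain ⟨y, hy⟩ := (IsAlgClosed.splits (fib b z)).mem_range_of_isRoot (hfibne a b z hz) h2
    have hy0 : y ∈ Ys b z := by
      simp only [Ys, Multiset.mem_toFinset]
      rw [mem_roots (hfibne a b z hz)]
      rw [← hy, IsRoot.def, eval_map, eval₂_at_apply] at h2
      exact (map_eq_zero _).1 h2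
    have hzt : π (rp y) = π t := by
      rw [hrp]
      exact hy
    rw [h.eq_iff] at hzt
    obtain ⟨j, hj1, hj2⟩ := (hzt.and ht).exists
    exact hj2.2 y hy0 hj1.symm
  -- conclusion
  obtain ⟨j, ⟨γ', h1⟩, h2, h3, h3', h4, h5, h6, h7⟩ :=
    (e1.and (e2.and (e3.and (e3'.and (e4.and (e5.and (e6.and e7))))))).exists
  refine j.2 ⟨γ', ⟨h4, ?_, ?_, ?_⟩⟩
  · intro a t ht
    obtain ⟨z, hz, rfl⟩ := h5 a t ht
    rw [h2 z (hZAll a z hz) γ' h1, h3' a z hz]
  · intro a b t ht
    obtain ⟨z, hz, rfl⟩ := h5 a t ht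
    exact h6 b a z hz
  · intro a b t y ht hy
    obtain ⟨z, hz, rfl⟩ := h5 a t ht
    obtain ⟨w, hw, rfl⟩ := h7 b a z hz y hy
    rw [h2 w (hYAll a b z hz w hw) γ' h1]
    exact h3 b a z hz w hw

end

end Pool.Agent.Helper61.TH
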