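import Mathlib
import Pool.Agent.Helper61.TH.SpecB
import Pool.Agent.Helper61.TH.Good2
import Pool.Agent.Helper61.TH.D5
import Pool.Agent.Helper86.TH.R3
import Pool.Agent.Helper87.TG.Fin

/-!
# TH: the dynamical Mordell-Lang conjecture outside a thin set
-/

set_option autoImplicit false

namespace Pool.Agent.Helper61.TH

noncomputable section

/-- **The theorem.** -/
theorem main (K : Type) [Field K] [NumberField K] {s : ℕ} (d : Fin s → ℕ) (hd : ∀ a, 2 ≤ d a) :
    UL.IsThin {c : Idx d → K | ¬ ∀ σ : K →+* ℂ, HasDeg (fun q => σ (c q)) ∧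
      FullDML (fun q => σ (c q)) ∧ UnifDML σ.fieldRange (fun q => σ (c q))} := by
  obtain ⟨Ψ, S, hΨ, hS, h⟩ := blockB K d (Pool.Agent.Helper87.TG.blockA K d hd)
  refine ⟨Ψ, S, hΨ, hS, fun c hc => h c fun hstar => hc fun σ => ?_⟩
  obtain ⟨γ, hγ⟩ := hstar
  obtain ⟨M, i1, i2, i3, p, i4, ψ, N, c', hp3, hN, hc', hU⟩ :=
    Pool.Agent.Helper86.TH.blockR K d hd c γ hγ
  exact blockD σ c N hN c' hc' p hp3 ψ fun w => blockD2 hd _ hU w

end

end Pool.Agent.Helper61.TH
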